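import Pool.Agent.Lib.MP_688fd0_co.SQ7.H31.Gen2
import Pool.Agent.Lib.MP_688fd0_co.SQ7.H71.Lvd

/-!
Type C2, B1-FULL, row WRD in the case `N ⊓ V = 1` (helper24): `Y = T / Nv` has order `κ = [T : N ∩ T]`, so all words are
bounded (helper25's `prim`).

`one`: the fields `cl`, `inv` of `Wrd` with `l₁ = δ`, `D = κ (κ + 1) + δ`. `one_word`: every element of `T` has a word of
length at most `κ (κ + 1) + δ`, congruent to its level modulo `δ`, modulo `Nv`.
-/

set_option autoImplicit false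

namespace Pool.Agent.Lib.MP_688fd0_co.SQ7.H24

open Pool.Agent.Lib.MP_688fd0_co.SQ7.H25 (vl vl_nil vl_append vl_cons Wd Sh sh_prim wd_prim)
open Pool.Agent.Lib.MP_688fd0_co.SQ7.H31 (VT qT qY coe_qT vl_qY vl_one cl_qY VT_map nor_of_cen VT_le)

variable {G : Type} [Group G] {N C : Subgroup G} {eps : G →* ℤˣ} {k P : ℕ} {A : Set G} {S : Lets G} {D : Set G}
    {T V Nv : Subgroup G} {L δ : ℕ} {lev : G → ZMod L}

/-- `V` is the group of the columns. -/
theorem vt_eq (hD : Dat N C eps k P A S D T V Nv L δ lev) : VT S T = V := by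
  apply le_antisymm
  · unfold VT
    rw [Subgroup.closure_le]
    rintro x ⟨y, hy, s, s', rfl⟩
    exact hD.Vn y hy _ (hD.Vs s s')
  · refine hD.Vmin _ (fun x hx y hy => ?_) (fun s s' => ?_)
    · unfold VT at hy ⊢
      induction hy using Subgroup.closure_induction with
      | mem z hz =>
        obtain ⟨w, hw, s, s', rfl⟩ := hz
        refine Subgroup.subset_closure ⟨x * w, T.mul_mem hx hw, s, s', ?_⟩
        group
      | one => rw [mul_one, mul_inv_cancel]; exact Subgroup.one_mem _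
      | mul a b _ _ ha hb =>
        have : x * (a * b) * x⁻¹ = (x * a * x⁻¹) * (x * b * x⁻¹) := by group
        rw [this]; exact Subgroup.mul_mem _ ha hb
      | inv a _ ha =>
        have : x * a⁻¹ * x⁻¹ = (x * a * x⁻¹)⁻¹ := by group
        rw [this]; exact Subgroup.inv_mem _ ha
    · refine Subgroup.subset_closure ⟨1, T.one_mem, s, s', ?_⟩
      group

/-- The level of an element of the level part is a multiple of `δ`. -/
theorem lev_Nv [Finite G] (hD : Dat N C eps k P A S D T V Nv L δ lev) {y : G} (hy : y ∈ Nv) :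
    ∃ j : ZMod L, lev y = j * (δ : ZMod L) := by
  have hc : 0 < Nat.card Nv := Nat.card_pos
  have : NeZero L := ⟨hD.Lpos.ne'⟩
  have h1 : (Nat.card Nv : ZMod L) * lev y = 0 := by
    rw [← hD.lev_pow (hD.NvT hy)]
    have h2 : y ^ Nat.card Nv = 1 := congrArg Subtype.val (pow_card_eq_one' (x := (⟨y, hy⟩ : Nv)))
    rw [h2, hD.lev_one]
  have h2 : (((Nat.card Nv * (lev y).val : ℕ)) : ZMod L) = 0 := by
    rw [Nat.cast_mul, ZMod.natCast_zmod_val]; exact h1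
  rw [ZMod.natCast_eq_zero_iff] at h2
  obtain ⟨m, hm⟩ := h2
  have h3 : (lev y).val = δ * m := by
    have h4 : Nat.card Nv * (lev y).val = Nat.card Nv * (δ * m) := by
      rw [hm]; nth_rw 1 [hD.hL]; ring
    exact Nat.eq_of_mul_eq_mul_left hc h4
  refine ⟨(m : ZMod L), ?_⟩
  rw [← ZMod.natCast_zmod_val (lev y), h3]
  push_cast
  ring

/-- Every multiple of `δ` is the level of an element of the level part. -/
theorem exists_Nv [Finite G] (hD : Dat N C eps k P A S D T V Nv L δ lev) (m : ℕ) :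
    ∃ y ∈ Nv, lev y = ((δ * m : ℕ) : ZMod L) := by
  have hc : 0 < Nat.card Nv := Nat.card_pos
  have : NeZero L := ⟨hD.Lpos.ne'⟩
  set Z : AddSubgroup (ZMod L) := AddSubgroup.zmultiples ((δ : ℕ) : ZMod L) with hZ
  have hmem : ∀ y : Nv, lev (y : G) ∈ Z := fun y => by
    obtain ⟨j, hj⟩ := lev_Nv hD y.2
    rw [hj, hZ, AddSubgroup.mem_zmultiples_iff]
    refine ⟨(j.val : ℤ), ?_⟩
    rw [natCast_zsmul, nsmul_eq_mul, ZMod.natCast_zmod_val]
  have hcard : Nat.card Z = Nat.card Nv := by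
    rw [hZ, Nat.card_zmultiples, ZMod.addOrderOf_coe _ hD.Lpos.ne']
    have h1 : L.gcd δ = δ := by
      rw [hD.hL]; exact Nat.gcd_eq_right (Dvd.intro _ rfl)
    rw [h1]
    nth_rw 1 [hD.hL]
    exact Nat.mul_div_cancel_left _ hD.δk.1
  have hinj : Function.Injective (fun y : Nv => (⟨lev (y : G), hmem y⟩ : Z)) := by
    intro x y hxy
    have h1 : lev (x : G) = lev (y : G) := congrArg Subtype.val hxy
    have h2 : lev ((x : G) * (y : G)⁻¹) = 0 := by
      rw [hD.lev_mul _ (hD.NvT x.2) _ (T.inv_mem (hD.NvT y.2)), hD.lev_inv (hD.NvT y.2), h1, add_neg_cancel]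
    have h3 := (hD.lev_V _ (T.mul_mem (hD.NvT x.2) (T.inv_mem (hD.NvT y.2)))).1 h2
    have h4 := hD.NvV _ (Nv.mul_mem x.2 (Nv.inv_mem y.2)) h3
    exact Subtype.ext (mul_inv_eq_one.1 h4)
  have : Finite Z := Subtype.finite
  have hsur := (Nat.bijective_iff_injective_and_card (fun y : Nv => (⟨lev (y : G), hmem y⟩ : Z))).2
    ⟨hinj, hcard.symm⟩
  have hz : ((δ * m : ℕ) : ZMod L) ∈ Z := by
    rw [hZ, AddSubgroup.mem_zmultiples_iff]
    exact ⟨(m : ℤ), by rw [natCast_zsmul, nsmul_eq_mul]; push_cast; ring⟩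
  obtain ⟨y, hy⟩ := hsur.2 ⟨_, hz⟩
  exact ⟨y, y.2, congrArg Subtype.val hy⟩

section

variable (hD : Dat N C eps k P A S D T V Nv L δ lev) (h1 : Nat.card (N ⊓ V : Subgroup G) = 1)

include hD

/-- The elements of `V Nv`. -/
theorem mem_map [Finite G] [(Nv.subgroupOf T).Normal] {x : G} (hx : x ∈ T) :
    QuotientGroup.mk' (Nv.subgroupOf T) (⟨x, hx⟩ : T) ∈
      (V.subgroupOf T).map (QuotientGroup.mk' (Nv.subgroupOf T)) ↔ ∃ y ∈ Nv, lev y = lev x := by
  constructor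
  · rintro ⟨v, hv, hvx⟩
    have h2 : v⁻¹ * ⟨x, hx⟩ ∈ Nv.subgroupOf T := QuotientGroup.eq.1 hvx
    have h3 := Subgroup.mem_subgroupOf.1 h2
    refine ⟨_, h3, ?_⟩
    rw [Subgroup.coe_mul, Subgroup.coe_inv, hD.lev_mul _ (T.inv_mem v.2) _ hx, hD.lev_inv v.2,
      (hD.lev_V _ v.2).2 (Subgroup.mem_subgroupOf.1 hv), neg_zero, zero_add]
  · rintro ⟨y, hy, hyx⟩
    have hyT := hD.NvT hy
    have h2 : x * y⁻¹ ∈ V := by
      refine (hD.lev_V _ (T.mul_mem hx (T.inv_mem hyT))).1 ?_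
      rw [hD.lev_mul _ hx _ (T.inv_mem hyT), hD.lev_inv hyT, hyx, add_neg_cancel]
    refine ⟨⟨x * y⁻¹, T.mul_mem hx (T.inv_mem hyT)⟩, Subgroup.mem_subgroupOf.2 h2, ?_⟩
    refine QuotientGroup.eq.2 (Subgroup.mem_subgroupOf.2 ?_)
    have h3 : (((⟨x * y⁻¹, T.mul_mem hx (T.inv_mem hyT)⟩ : T)⁻¹ * ⟨x, hx⟩ : T) : G) = y := by
      show (x * y⁻¹)⁻¹ * x = y
      group
    rw [h3]; exact hy

/-- `δ` is the order of a letter modulo `V Nv`. -/
theorem pow_iff [Finite G] [(Nv.subgroupOf T).Normal] (s : Lt) (n : ℕ) :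
    (qY S T Nv hD.sv_mem s) ^ n ∈ (V.subgroupOf T).map (QuotientGroup.mk' (Nv.subgroupOf T)) ↔ δ ∣ n := by
  have : NeZero L := ⟨hD.Lpos.ne'⟩
  have hdL : δ ∣ L := by rw [hD.hL]; exact Dvd.intro _ rfl
  have h0 : (qY S T Nv hD.sv_mem s) ^ n =
      QuotientGroup.mk' (Nv.subgroupOf T) (⟨S.sv s ^ n, T.pow_mem (hD.sv_mem s) n⟩ : T) := by
    rw [qY, ← map_pow]; rfl
  have h2 : lev (S.sv s ^ n) = (n : ZMod L) := by
    rw [hD.lev_pow (hD.sv_mem s), hD.lev_sv, mul_one]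
  rw [h0, mem_map hD, h2]
  constructor
  · rintro ⟨y, hy, hyn⟩
    obtain ⟨j, hj⟩ := lev_Nv hD hy
    rw [hyn] at hj
    have h3 : ((n : ℕ) : ZMod δ) = 0 := by
      have h4 := congrArg (ZMod.castHom hdL (ZMod δ)) hj
      rw [map_natCast, map_mul, map_natCast, ZMod.natCast_self, mul_zero] at h4
      exact h4
    exact (ZMod.natCast_eq_zero_iff _ _).1 h3
  · rintro ⟨m, rfl⟩
    exact exists_Nv hD m

include h1

/-- In the case `N ⊓ V = 1` the level part is `N ∩ T`. -/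
theorem Nv_eq : Nv.subgroupOf T = N.subgroupOf T := by
  ext x
  rw [Subgroup.mem_subgroupOf, Subgroup.mem_subgroupOf]
  constructor
  · exact fun hx => hD.NvN hx
  · intro hx
    obtain ⟨y, hy, z, hz, hyz⟩ := hD.NT _ hx x.2
    have h2 : (N ⊓ V : Subgroup G) = ⊥ := Subgroup.eq_bot_of_card_eq _ h1
    rw [h2] at hz
    rw [hyz, Subgroup.mem_bot.1 hz, mul_one]
    exact hy

theorem card_Y [(Nv.subgroupOf T).Normal] : Nat.card (T ⧸ Nv.subgroupOf T) = (N.subgroupOf T).index := by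
  rw [← Nv_eq hD h1]; rfl

/-- **WORDS in the case `N ⊓ V = 1`**: closed words and inverses of letters. -/
theorem one [Finite G] :
    (∀ m, (N.subgroupOf T).index * ((N.subgroupOf T).index + 1) + δ ≤ m → δ ∣ m →
      ∃ w : List Lt, w.length = m ∧ (w.map S.sv).prod ∈ Nv) ∧
    (∀ s : Lt, ∃ w : List Lt, w.length ≤ (N.subgroupOf T).index * ((N.subgroupOf T).index + 1) + δ ∧
      δ ∣ w.length + 1 ∧ S.sv s * (w.map S.sv).prod ∈ Nv) := by
  have hn := nor_of_cen hD.Nv_cen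
  have hm : ∀ s, S.sv s ∈ T := hD.sv_mem
  have hV := VT_map (S := S) (T := T) (Nv := Nv) hm
  rw [vt_eq hD] at hV
  have hVn : ((V.subgroupOf T).map (QuotientGroup.mk' (Nv.subgroupOf T))).Normal := by
    rw [hV]; exact Subgroup.normalClosure_normal
  have hW := wd_prim (cl_qY hm hD.Tcl) ((false, false) : Lt) _ hV δ (fun n => pow_iff hD _ n) hD.δk.1
  rw [card_Y hD h1] at hW
  have key : ∀ w : List Lt, vl (qY S T Nv hm) w = 1 → (w.map S.sv).prod ∈ Nv := by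
    intro w hw
    rw [vl_qY] at hw
    have h3 := Subgroup.mem_subgroupOf.1 ((QuotientGroup.eq_one_iff _).1 hw)
    rwa [coe_qT] at h3
  refine ⟨fun m hm1 hm2 => ?_, fun s => ?_⟩
  · obtain ⟨w, hw1, hw2⟩ := hW.one m hm1 hm2
    exact ⟨w, hw1, key w hw2⟩
  · obtain ⟨w, hw1, hw2, hw3⟩ := hW.inv s
    refine ⟨w, hw1, hw2, ?_⟩
    have h4 := key (s :: w) (by rw [vl_cons, hw3, mul_inv_cancel])
    rwa [List.map_cons, List.prod_cons] at h4

/-- **WORDS in the case `N ⊓ V = 1`**: every element of `T` is short modulo `Nv`. -/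
theorem one_word [Finite G] {x : G} (hx : x ∈ T) :
    ∃ w : List Lt, w.length ≤ (N.subgroupOf T).index * ((N.subgroupOf T).index + 1) + δ ∧
      w.length ≡ (lev x).val [MOD δ] ∧ ((w.map S.sv).prod)⁻¹ * x ∈ Nv := by
  have hn := nor_of_cen hD.Nv_cen
  have : NeZero L := ⟨hD.Lpos.ne'⟩
  have hm : ∀ s, S.sv s ∈ T := hD.sv_mem
  have hV := VT_map (S := S) (T := T) (Nv := Nv) hm
  rw [vt_eq hD] at hV
  have hVn : ((V.subgroupOf T).map (QuotientGroup.mk' (Nv.subgroupOf T))).Normal := by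
    rw [hV]; exact Subgroup.normalClosure_normal
  set s₀ : Lt := (false, false) with hs₀
  have hmem : QuotientGroup.mk' (Nv.subgroupOf T) (⟨x, hx⟩ : T) * ((qY S T Nv hm s₀) ^ (((lev x).val : ℕ) : ℤ))⁻¹ ∈
      (V.subgroupOf T).map (QuotientGroup.mk' (Nv.subgroupOf T)) := by
    have hsT : S.sv s₀ ^ (lev x).val ∈ T := T.pow_mem (hm s₀) _
    have hz : x * (S.sv s₀ ^ (lev x).val)⁻¹ ∈ T := T.mul_mem hx (T.inv_mem hsT)
    have h2 : QuotientGroup.mk' (Nv.subgroupOf T) (⟨x, hx⟩ : T) * ((qY S T Nv hm s₀) ^ (((lev x).val : ℕ) : ℤ))⁻¹ =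
        QuotientGroup.mk' (Nv.subgroupOf T) (⟨x * (S.sv s₀ ^ (lev x).val)⁻¹, hz⟩ : T) := by
      rw [zpow_natCast, qY, ← map_pow, ← map_inv, ← map_mul]; rfl
    rw [h2, mem_map hD]
    refine ⟨1, Nv.one_mem, ?_⟩
    rw [hD.lev_mul _ hx _ (T.inv_mem hsT), hD.lev_inv hsT, hD.lev_pow (hm s₀), hD.lev_sv, mul_one,
      ZMod.natCast_zmod_val, add_neg_cancel, hD.lev_one]
  obtain ⟨w, hw1, hw2, hw3⟩ := sh_prim (cl_qY hm hD.Tcl) s₀ _ hV δ (fun n => pow_iff hD _ n) hD.δk.1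
    (QuotientGroup.mk' (Nv.subgroupOf T) (⟨x, hx⟩ : T)) (((lev x).val : ℕ) : ℤ) hmem
  rw [card_Y hD h1] at hw1
  refine ⟨w, hw1, Nat.modEq_iff_dvd.2 hw2, ?_⟩
  rw [vl_qY] at hw3
  have h3 := Subgroup.mem_subgroupOf.1 (QuotientGroup.eq.1 hw3)
  rw [Subgroup.coe_mul, Subgroup.coe_inv, coe_qT] at h3
  exact h3

end

end Pool.Agent.Lib.MP_688fd0_co.SQ7.H24
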